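import Pool.Agent.H53.HR.Main

/-!
# MP_f2da09_co: linear CZ-distance for bounded clique number in vertex-minor-closed classes

Definitions are in `Pool/Agent/H53/CZ/Defs.lean` (`lc`, `VMClosed`, `Gate`, `run`, `graphState`,
`Prepares`, `czCount`, `cz`).
-/

namespace Pool.Agent.Results.MP_f2da09_co.BoundedClique

open Pool.Agent.H53.CZD

/-- In a proper vertex-minor-closed class the members of bounded clique number have linear
CZ-distance (and the minimum in the definition of the CZ-distance is attained). -/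
theorem result (F : ∀ n : ℕ, SimpleGraph (Fin n) → Prop) (hF : VMClosed F)
    (hproper : ∃ (t : ℕ) (H : SimpleGraph (Fin t)), ¬ F t H) (ω : ℕ) :
    ∃ C : ℕ, ∀ (n : ℕ) (G : SimpleGraph (Fin n)), F n G → G.CliqueFree (ω + 1) →
      (∃ l : List (Gate n), Prepares l G ∧ czCount l = cz G) ∧ cz G ≤ C * n := by
  classical
  obtain ⟨t, H, hH⟩ := hproper
  obtain ⟨η, hη⟩ := Pool.Agent.H53.HR.p_HALL F hF t H hH ω
  refine ⟨9 * R0 (t ^ 2 + t) ^ 2 * η, fun n G hG hω => ?_⟩
  have hcl : Pool.Agent.H53.HR.CliqueLE G Finset.univ ω := by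
    intro K _ hK
    by_contra hcon
    push Not at hcon
    obtain ⟨K', hK', hc⟩ := Finset.exists_subset_card_eq (Nat.succ_le_of_lt hcon)
    refine hω K' ⟨?_, hc⟩
    intro x hx y hy hxy
    exact hK x (hK' hx) y (hK' hy) hxy
  have hall := hη n G hG Finset.univ hcl
  obtain ⟨l, h2, h3⟩ := main1 hF hH hG η (fun U => by
    obtain ⟨I, hI, h4, h5⟩ := hall U (Finset.subset_univ _)
    exact ⟨I, hI, h4, h5⟩)
  have hne : {k | ∃ l : List (Gate n), Prepares l G ∧ czCount l = k}.Nonempty := ⟨_, l, h2, rfl⟩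
  refine ⟨Nat.sInf_mem hne, ?_⟩
  have h4 : cz G ≤ czCount l := Nat.sInf_le (s := {k | ∃ l : List (Gate n),
      Prepares l G ∧ czCount l = k}) ⟨l, h2, rfl⟩
  exact h4.trans h3

end Pool.Agent.Results.MP_f2da09_co.BoundedClique
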