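import Pool.Agent.H53.CZ.Main

/-!
# MP_f2da09_co: linear CZ-distance in proper vertex-minor-closed classes

Definitions are in `Pool/Agent/H53/CZ/Defs.lean` (`lc`, `VMClosed`, `Gate`, `run`, `graphState`,
`Prepares`, `czCount`, `cz`, `R0`).
-/

namespace Pool.Agent.Results.MP_f2da09_co.LinearInChi

open Pool.Agent.H53.CZD

/-- Every set `U` of vertices of `G` contains an independent set with at least `|U| / η`
elements. -/
def HallRatioLE {n : ℕ} (η : ℕ) (G : SimpleGraph (Fin n)) : Prop :=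
  ∀ U : Finset (Fin n), ∃ I ⊆ U, (∀ x ∈ I, ∀ y ∈ I, ¬ G.Adj x y) ∧ U.card ≤ η * I.card

theorem result (F : ∀ n : ℕ, SimpleGraph (Fin n) → Prop) (hF : VMClosed F)
    (t : ℕ) (H : SimpleGraph (Fin t)) (hH : ¬ F t H) (n : ℕ) (G : SimpleGraph (Fin n))
    (hG : F n G) :
    (∃ l : List (Gate n), Prepares l G ∧ czCount l = cz G) ∧
      (∀ η : ℕ, HallRatioLE η G → cz G ≤ 9 * R0 (t ^ 2 + t) ^ 2 * η * n) ∧
      (∀ k : ℕ, G.Colorable k → cz G ≤ 9 * R0 (t ^ 2 + t) ^ 2 * k * n) := by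
  have h1 : ∀ η : ℕ, HallRatioLE η G → cz G ≤ 9 * R0 (t ^ 2 + t) ^ 2 * η * n := by
    intro η hη
    obtain ⟨l, h2, h3⟩ := main1 hF hH hG η hη
    have h4 : cz G ≤ czCount l := Nat.sInf_le (s := {k | ∃ l : List (Gate n),
      Prepares l G ∧ czCount l = k}) ⟨l, h2, rfl⟩
    exact h4.trans h3
  refine ⟨?_, h1, fun k hk => h1 k (fun U => indep_of_colorable hk U)⟩
  have hc : G.Colorable n := by
    have h0 := G.colorable_of_fintype
    rwa [Fintype.card_fin] at h0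
  obtain ⟨l, h3, _⟩ := main1 hF hH hG n (fun U => indep_of_colorable hc U)
  exact Nat.sInf_mem (s := {k | ∃ l : List (Gate n), Prepares l G ∧ czCount l = k})
    ⟨_, l, h3, rfl⟩

end Pool.Agent.Results.MP_f2da09_co.LinearInChi
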